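import Pool.Agent.Q72.AL.Stm4
import Pool.Agent.Q230.AL.CHAIN
import Pool.Agent.Q254.AL.DIFF

/-!
# Project AL (MP_f0209c_nt): the lemma CHAINB
-/

set_option autoImplicit false

open Complex MeasureTheory Filter Topology Set
open H345 (Zo aa XX)

namespace Pool.Agent.Q113.AL

open Pool.Agent.Q72.AL
open Pool.Agent.Q230.AL (N2_nonneg N2_cont)

noncomputable section

/-- the sum of the `QQ` on the right side of EPT -/
def SQ (Z : Finset ℝ) (w : ℝ) (n : ℕ) (T : ℝ) : ℝ :=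
  ∑ j ∈ Finset.Icc (-(n : ℤ)) n, Real.exp (-((j : ℝ) ^ 2)) * QQ Z w (T + j)

theorem gauss_sum : ∃ S : ℝ, 0 < S ∧ ∀ n : ℕ,
    ∑ j ∈ Finset.Icc (-(n : ℤ)) n, Real.exp (-((j : ℝ) ^ 2)) ≤ S := by
  have h1 : Summable (fun j : ℤ => 1 / (j : ℝ) ^ 2) :=
    Real.summable_one_div_int_pow.2 (by norm_num)
  have h2 : Summable (fun j : ℤ => if j = 0 then (1 : ℝ) else 0) :=
    (hasSum_ite_eq (0 : ℤ) (1 : ℝ)).summable
  have h3 := h1.add h2
  have hnn : ∀ j : ℤ, 0 ≤ 1 / (j : ℝ) ^ 2 + (if j = 0 then (1 : ℝ) else 0) := by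
    intro j
    split_ifs <;> positivity
  refine ⟨∑' j : ℤ, (1 / (j : ℝ) ^ 2 + (if j = 0 then (1 : ℝ) else 0)) + 1, ?_, fun n => ?_⟩
  · have : 0 ≤ ∑' j : ℤ, (1 / (j : ℝ) ^ 2 + (if j = 0 then (1 : ℝ) else 0)) := tsum_nonneg hnn
    linarith
  · have h4 : ∑ j ∈ Finset.Icc (-(n : ℤ)) n, Real.exp (-((j : ℝ) ^ 2)) ≤
        ∑ j ∈ Finset.Icc (-(n : ℤ)) n, (1 / (j : ℝ) ^ 2 + (if j = 0 then (1 : ℝ) else 0)) := by
      refine Finset.sum_le_sum fun j _ => ?_
      by_cases hj : j = 0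
      · subst hj
        simp
      · rw [if_neg hj, add_zero]
        have hj' : (j : ℝ) ≠ 0 := by exact_mod_cast hj
        have hj2 : 0 < (j : ℝ) ^ 2 := by positivity
        rw [Real.exp_neg, one_div]
        refine inv_anti₀ hj2 ?_
        linarith [Real.add_one_le_exp ((j : ℝ) ^ 2)]
    have h5 := h3.sum_le_tsum (Finset.Icc (-(n : ℤ)) n) (fun j _ => hnn j)
    linarith

theorem sq3 (x y z : ℝ) : (x + y + z) ^ 2 ≤ 3 * x ^ 2 + 3 * y ^ 2 + 3 * z ^ 2 := by
  nlinarith [sq_nonneg (x - y), sq_nonneg (x - z), sq_nonneg (y - z)]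

/-- the pointwise difference -/
theorem diffb (h2 : J_EPT) (h6 : J_FE) (h7 : J_CNT) (hRH : RiemannHypothesis) (a C0 : ℝ)
    (hC0 : 0 < C0) : ∃ C : ℝ, 0 < C ∧ ∀ c : ℝ, 0 < c → c ≤ 1 → ∃ X0 : ℝ, ∀ X δ : ℝ, X0 ≤ X →
    0 < δ → δ ≤ 1 → HYPB a δ X → ∀ Z : Finset ℝ, EFB C0 X Z → ∀ T : ℝ, X ≤ T → T ≤ 2 * X →
    |‖DD 2 (Real.log (c * X)) T‖ -
      ‖DD 2 (Real.log (2 * Real.pi * Real.exp (2 * a) / c) + Real.log (T / X)) T‖| ^ 2 ≤
      C * (δ ^ 2 * SQ Z (Real.log c - Real.log X) ⌈Real.log X ^ 2⌉₊ T +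
        Real.log X / X ^ 2 * N2 Z T + 1 / X) := by
  obtain ⟨Ce, Xe, hCe, H2⟩ := h2 hRH a
  obtain ⟨C2, T0, hC2, hT0, H1⟩ := h6
  obtain ⟨⟨C3, hC3, H3⟩, -⟩ := h7
  refine ⟨3 * Ce + 3 * (C2 ^ 2 * C3) + 6, by positivity, ?_⟩
  intro c hc hc1
  set K : ℝ := 2 * Real.pi * Real.exp (2 * a) with hK
  have hKp : 0 < K := by positivity
  set M : ℝ := C0 * (2 + 1 / c + c / K) + 1 with hM
  have hMp : 0 < M := by positivity
  refine ⟨max Xe (max T0 (max (16 * Real.exp 1) (max (M ^ 2) (max (Real.exp |Real.log c|)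
    (Real.exp (|Real.log (K / c)| + 1)))))), ?_⟩
  intro X δ hX hδ hδ1 hyp Z efp T hT1 hT2
  have hX1 : Xe ≤ X := le_trans (le_max_left _ _) hX
  have hX' := le_trans (le_max_right _ _) hX
  have hXT : T0 ≤ X := le_trans (le_max_left _ _) hX'
  have hX'' := le_trans (le_max_right _ _) hX'
  have hXe16 : 16 * Real.exp 1 ≤ X := le_trans (le_max_left _ _) hX''
  have he1p : 0 < Real.exp 1 := Real.exp_pos _
  have hXe : Real.exp 1 ≤ X := by linarith
  have hX3 := le_trans (le_max_right _ _) hX''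
  have hXM : M ^ 2 ≤ X := le_trans (le_max_left _ _) hX3
  have hX4 := le_trans (le_max_right _ _) hX3
  have hXc : Real.exp |Real.log c| ≤ X := le_trans (le_max_left _ _) hX4
  have hXK : Real.exp (|Real.log (K / c)| + 1) ≤ X := le_trans (le_max_right _ _) hX4
  have hXp : 0 < X := lt_of_lt_of_le (Real.exp_pos _) hXe
  have hTp : 0 < T := lt_of_lt_of_le hXp hT1
  have hL1 : 1 ≤ Real.log X := by rw [Real.le_log_iff_exp_le hXp]; exact hXe
  have hLc : |Real.log c| ≤ Real.log X := by rw [Real.le_log_iff_exp_le hXp]; exact hXc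
  have hLK : |Real.log (K / c)| + 1 ≤ Real.log X := by
    rw [Real.le_log_iff_exp_le hXp]; exact hXK
  have hXone : 1 ≤ X := by linarith [Real.add_one_le_exp (1 : ℝ)]
  set v : ℝ := Real.log (c * X) with hv
  have hv' : v = Real.log c + Real.log X := Real.log_mul hc.ne' hXp.ne'
  set w : ℝ := Real.log (K / c) + Real.log (T / X) with hw
  have hTX : Real.log (T / X) = Real.log T - Real.log X := Real.log_div hTp.ne' hXp.ne'
  have hw' : -(v - 2 * (Real.log T + a)) - Real.log (T / (2 * Real.pi)) = w := by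
    rw [hw, hv', hTX, Real.log_div hTp.ne' (by positivity), Real.log_div hKp.ne' hc.ne', hK,
      Real.log_mul (by positivity) (Real.exp_pos _).ne', Real.log_exp]
    ring
  have hTX0 : 0 ≤ Real.log (T / X) := Real.log_nonneg (by rw [le_div_iff₀ hXp]; linarith)
  have hTX1 : Real.log (T / X) ≤ 1 := by
    have : T / X ≤ 2 := by rw [div_le_iff₀ hXp]; linarith
    calc Real.log (T / X) ≤ Real.log 2 := Real.log_le_log (by positivity) this
      _ ≤ 1 := by linarith [Real.log_two_lt_d9]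
  have hvb : |v| ≤ 3 * Real.log X := by
    rw [hv']
    calc |Real.log c + Real.log X| ≤ |Real.log c| + |Real.log X| := abs_add_le _ _
      _ ≤ 3 * Real.log X := by rw [abs_of_pos (by linarith : 0 < Real.log X)]; linarith
  have hwb : |w| ≤ 3 * Real.log X := by
    calc |w| ≤ |Real.log (K / c)| + |Real.log (T / X)| := abs_add_le _ _
      _ ≤ 3 * Real.log X := by rw [abs_of_nonneg hTX0]; linarith
  have E1 := efp.ef 2 v T (by norm_num) (by norm_num) (by linarith) (by linarith) hvb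
  have E2 := efp.ef 2 w T (by norm_num) (by norm_num) (by linarith) (by linarith) hwb
  have F1 := H1 T (le_trans hXT hT1) Z (fun t ht => (efp.sub t ht).1) 2
    (v - 2 * (Real.log T + a))
  rw [hw'] at F1
  have F2 := H2 X δ c hX1 hδ hδ1 hc hc1 hyp Z efp.sub T hT1 hT2
  have F3 := H3 (Real.log X) Z hL1 (fun t ht t' ht' htt => by
    have h8 := hyp.spaced t (efp.sub t ht).1 t' (efp.sub t' ht').1
      (by have := (efp.sub t ht).2.1; linarith) htt
      (by have := (efp.sub t' ht').2.2; linarith)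
    have h9 : 1 / Real.log X ≤ 1 / Real.log (X / 16) := by
      have h10 : 0 < Real.log (X / 16) := by
        apply Real.log_pos
        linarith [Real.add_one_le_exp (1 : ℝ)]
      exact one_div_le_one_div_of_le h10 (Real.log_le_log (by positivity) (by linarith))
    linarith) T
  have hev : Real.exp (-v) ≤ 1 / c := by
    rw [Real.exp_neg, hv, Real.exp_log (by positivity), one_div]
    exact inv_anti₀ hc (by nlinarith)
  have hew : Real.exp (-w) ≤ c / K := by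
    calc Real.exp (-w) ≤ Real.exp (-Real.log (K / c)) := Real.exp_le_exp.mpr (by linarith)
      _ = c / K := by rw [Real.exp_neg, Real.exp_log (by positivity), inv_div]
  have hsum : C0 * (1 + Real.exp (-v)) / X + C0 * (1 + Real.exp (-w)) / X ≤
      1 / Real.sqrt X := by
    have hMX : M ≤ Real.sqrt X := Real.le_sqrt_of_sq_le hXM
    calc C0 * (1 + Real.exp (-v)) / X + C0 * (1 + Real.exp (-w)) / X
        = (C0 * (2 + Real.exp (-v) + Real.exp (-w))) / X := by ring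
      _ ≤ M / X := by
          refine div_le_div_of_nonneg_right ?_ hXp.le
          rw [hM]
          have := mul_le_mul_of_nonneg_left (by linarith :
            2 + Real.exp (-v) + Real.exp (-w) ≤ 2 + 1 / c + c / K) hC0.le
          linarith
      _ ≤ Real.sqrt X / X := div_le_div_of_nonneg_right hMX hXp.le
      _ = 1 / Real.sqrt X := Real.sqrt_div_self'
  have hN0 : 0 ≤ Real.sqrt (N2 Z T) := Real.sqrt_nonneg _
  have hF1 : C2 / T * ∑ t ∈ Z, ‖aa t‖ * Real.exp (-(2 * (t - T) ^ 2)) * (1 + (t - T) ^ 2) ≤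
      C2 * Real.sqrt C3 * (Real.sqrt (Real.log X) / X) * Real.sqrt (N2 Z T) := by
    have hcs := Pool.Agent.Q254.AL.cs Z T
    have hsq : Real.sqrt (∑ t ∈ Z, Real.exp (-(2 * (t - T) ^ 2)) * (1 + (t - T) ^ 2) ^ 2) ≤
        Real.sqrt C3 * Real.sqrt (Real.log X) := by
      rw [← Real.sqrt_mul hC3.le]
      exact Real.sqrt_le_sqrt F3
    calc C2 / T * ∑ t ∈ Z, ‖aa t‖ * Real.exp (-(2 * (t - T) ^ 2)) * (1 + (t - T) ^ 2)
        ≤ C2 / T * (Real.sqrt (N2 Z T) * (Real.sqrt C3 * Real.sqrt (Real.log X))) := by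
          refine mul_le_mul_of_nonneg_left ?_ (by positivity)
          exact hcs.trans (mul_le_mul_of_nonneg_left hsq hN0)
      _ ≤ C2 / X * (Real.sqrt (N2 Z T) * (Real.sqrt C3 * Real.sqrt (Real.log X))) := by
          refine mul_le_mul_of_nonneg_right ?_ (by positivity)
          exact div_le_div_of_nonneg_left hC2.le hXp hT1
      _ = C2 * Real.sqrt C3 * (Real.sqrt (Real.log X) / X) * Real.sqrt (N2 Z T) := by ring
  have A1 := (abs_norm_sub_norm_le (DD 2 v T) (ZZ Z 2 v T)).trans E1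
  have A2 := (abs_norm_sub_norm_le (DD 2 w T) (ZZ Z 2 w T)).trans E2
  have G1 := F1.trans hF1
  set P : ℝ := |‖ZZ Z 2 v T‖ - ‖ZZ Z 2 (v - 2 * (Real.log T + a)) T‖| with hP
  set Q : ℝ := C2 * Real.sqrt C3 * (Real.sqrt (Real.log X) / X) * Real.sqrt (N2 Z T) with hQ
  have hP0 : 0 ≤ P := abs_nonneg _
  have hQ0 : 0 ≤ Q := by positivity
  have hR0 : 0 ≤ 1 / Real.sqrt X := by positivity
  have hE : |‖DD 2 v T‖ - ‖DD 2 w T‖| ≤ P + Q + 1 / Real.sqrt X := by
    have hPa : |‖ZZ Z 2 v T‖ - ‖ZZ Z 2 (v - 2 * (Real.log T + a)) T‖| ≤ P := le_rfl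
    rw [abs_le] at A1 A2 G1 hPa ⊢
    constructor <;> linarith [A1.1, A1.2, A2.1, A2.2, G1.1, G1.2, hPa.1, hPa.2]
  have hE2 : |‖DD 2 v T‖ - ‖DD 2 w T‖| ^ 2 ≤ 3 * P ^ 2 + 3 * Q ^ 2 + 3 * (1 / Real.sqrt X) ^ 2 := by
    have h8 : |‖DD 2 v T‖ - ‖DD 2 w T‖| ^ 2 ≤ (P + Q + 1 / Real.sqrt X) ^ 2 := by gcongr
    exact h8.trans (sq3 _ _ _)
  have hQ2 : Q ^ 2 = C2 ^ 2 * C3 * (Real.log X / X ^ 2 * N2 Z T) := by
    rw [hQ, mul_pow, mul_pow, mul_pow, div_pow, Real.sq_sqrt hC3.le,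
      Real.sq_sqrt (by linarith : 0 ≤ Real.log X), Real.sq_sqrt (N2_nonneg Z T)]
    ring
  have hR2 : (1 / Real.sqrt X) ^ 2 = 1 / X := by
    rw [div_pow, one_pow, Real.sq_sqrt hXp.le]
  have hP2 : P ^ 2 ≤ Ce * δ ^ 2 * SQ Z (Real.log c - Real.log X) ⌈Real.log X ^ 2⌉₊ T + 1 / X := F2
  have hS0 : 0 ≤ SQ Z (Real.log c - Real.log X) ⌈Real.log X ^ 2⌉₊ T := by
    refine Finset.sum_nonneg fun j _ => mul_nonneg (Real.exp_pos _).le ?_
    unfold QQ
    exact integral_nonneg fun x => by positivity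
  have hN20 : 0 ≤ Real.log X / X ^ 2 * N2 Z T := mul_nonneg (by positivity) (N2_nonneg Z T)
  have hX10 : 0 ≤ 1 / X := by positivity
  have hδS : 0 ≤ δ ^ 2 * SQ Z (Real.log c - Real.log X) ⌈Real.log X ^ 2⌉₊ T := by positivity
  rw [hQ2, hR2] at hE2
  refine hE2.trans ?_
  have hCC : 0 < C2 ^ 2 * C3 := by positivity
  have k1 := mul_nonneg hCe.le hN20
  have k2 := mul_nonneg hCe.le hX10
  have k3 := mul_nonneg hCC.le hδS
  have k4 := mul_nonneg hCC.le hX10
  generalize SQ Z (Real.log c - Real.log X) ⌈Real.log X ^ 2⌉₊ T = sq at *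
  generalize Real.log X / X ^ 2 * N2 Z T = n2 at *
  generalize 1 / X = xi at *
  generalize C2 ^ 2 * C3 = cc at *
  have k5 : (3 * Ce + 3 * cc + 6) * (δ ^ 2 * sq + n2 + xi) = 3 * (Ce * δ ^ 2 * sq) +
      3 * (Ce * n2) + 3 * (Ce * xi) + 3 * (cc * (δ ^ 2 * sq)) + 3 * (cc * n2) + 3 * (cc * xi) +
      6 * (δ ^ 2 * sq) + 6 * n2 + 6 * xi := by ring
  rw [k5]
  linarith

/-- the pointwise inequality for the squares -/
theorem sqdiff {f g δ R : ℝ} (hδ : 0 < δ) (hδ1 : δ ≤ 1) (hf : 0 ≤ f) (hR : |f - g| ^ 2 ≤ δ ^ 2 * R) :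
    |f ^ 2 - g ^ 2| ≤ δ * f ^ 2 + 2 * δ * R := by
  set E := |f - g| with hE
  have hE0 : 0 ≤ E := abs_nonneg _
  have h5 : |f ^ 2 - g ^ 2| ≤ 2 * f * E + E ^ 2 := by
    have h6 : f ^ 2 - g ^ 2 = 2 * f * (f - g) - (f - g) ^ 2 := by ring
    rw [h6]
    have h7 := abs_sub (2 * f * (f - g)) ((f - g) ^ 2)
    have h8 : |2 * f * (f - g)| = 2 * f * E := by
      rw [abs_mul, abs_of_nonneg (by positivity : (0 : ℝ) ≤ 2 * f)]
    have h9 : |(f - g) ^ 2| = E ^ 2 := by
      rw [abs_pow]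
    linarith
  have h10 : 2 * f * E ≤ δ * f ^ 2 + E ^ 2 / δ := by
    have h11 : δ * f ^ 2 + E ^ 2 / δ - 2 * f * E = (δ * f - E) ^ 2 / δ := by
      field_simp
      ring
    have h12 : 0 ≤ (δ * f - E) ^ 2 / δ := by positivity
    linarith
  have h13 : E ^ 2 ≤ E ^ 2 / δ := by
    rw [le_div_iff₀ hδ]
    nlinarith [sq_nonneg E]
  have h14 : E ^ 2 / δ ≤ δ * R := by
    rw [div_le_iff₀ hδ]
    linarith
  linarith

theorem chainb (h1 : J_EFB) (h2 : J_EPT) (h3 : J_QQB) (h4 : J_QQC) (h5 : J_N2B) (h6 : J_FE)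
    (h7 : J_CNT) (h8 : J_MV) (h9 : J_DDB) (h10 : J_DDC) (h11 : J_WT) : J_CHAINB := by
  intro hRH a
  obtain ⟨C0, Xe, hC0, hEF⟩ := h1 hRH
  obtain ⟨C6, hC6, hDIFF⟩ := diffb h2 h6 h7 hRH a C0 hC0
  obtain ⟨δ0, C2, X2, hδ0, hC2, hN2⟩ := h5 hRH a C0 hC0
  obtain ⟨δq, hδq, hQQ⟩ := h3 hRH a C0 hC0
  obtain ⟨C3, hC3, hMV⟩ := h8
  obtain ⟨C4, hC4, hDDB⟩ := h9
  obtain ⟨hwt, hwc, hW0, -⟩ := h11
  obtain ⟨S, hS, hSn⟩ := gauss_sum
  refine ⟨C3, min (min δ0 δq) 1, hC3, by positivity, ?_⟩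
  intro c hc hc1
  obtain ⟨Cq, Xq, hCq, hq⟩ := hQQ c hc hc1
  obtain ⟨Xd, hD⟩ := hDIFF c hc hc1
  refine ⟨C3 + (W0 * C4 + 2 * C3 + 2 * C6 * (S * Cq + C2 + 1)), by positivity, ?_⟩
  intro δ hδ hδm
  simp only [le_min_iff] at hδm
  obtain ⟨⟨hδδ0, hδδq⟩, hδ1⟩ := hδm
  -- large X
  have hev : ∀ᶠ X : ℝ in atTop, (⌈Real.log X ^ 2⌉₊ : ℝ) ≤ X / 2 ∧ Real.log X / X ^ 2 ≤ δ ^ 2 ∧
      1 / X ≤ δ ^ 2 ∧ Xe ≤ X ∧ X2 ≤ X ∧ Xq ≤ X ∧ Xd ≤ X ∧ 1 ≤ X := by
    have e1 : ∀ᶠ X : ℝ in atTop, Real.log X ^ 2 ≤ 1 / 4 * X := by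
      have h12 := (Real.isLittleO_pow_log_id_atTop (n := 2)).bound (by norm_num : (0 : ℝ) < 1 / 4)
      filter_upwards [h12, eventually_ge_atTop (0 : ℝ)] with X hX hX0
      rw [Real.norm_of_nonneg (by positivity), id, Real.norm_of_nonneg hX0] at hX
      exact hX
    filter_upwards [e1, eventually_ge_atTop Xe, eventually_ge_atTop X2, eventually_ge_atTop Xq,
      eventually_ge_atTop Xd, eventually_ge_atTop (4 : ℝ), eventually_ge_atTop (1 / δ ^ 2)] with
      X hX1 hX2 hX3 hX4 hX5 hX6 hX7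
    have hXp : 0 < X := by linarith
    have hXi : 1 / X ≤ δ ^ 2 := by
      rw [div_le_iff₀ (by positivity : 0 < δ ^ 2)] at hX7
      rw [div_le_iff₀ hXp]
      linarith
    refine ⟨?_, ?_, hXi, hX2, hX3, hX4, hX5, by linarith⟩
    · have h12 := (Nat.ceil_lt_add_one (by positivity : 0 ≤ Real.log X ^ 2)).le
      linarith
    · refine le_trans ?_ hXi
      rw [div_le_div_iff₀ (by positivity) hXp]
      have h12 := Real.log_le_sub_one_of_pos hXp
      nlinarith
  obtain ⟨X0, hX0'⟩ := Filter.eventually_atTop.1 hev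
  refine ⟨X0, ?_⟩
  intro X hXX0 hH
  obtain ⟨hn, hLX, hXi2, hXe, hX2, hXq, hXd, hX1⟩ := hX0' X hXX0
  obtain ⟨Z, hZ⟩ := hEF X hXe hH.simple
  have hX0 : 0 < X := by linarith
  have hXi : 1 / X ≤ δ := by nlinarith
  set K : ℝ := 2 * Real.pi * Real.exp (2 * a) with hK
  set n : ℕ := ⌈Real.log X ^ 2⌉₊ with hndef
  set w : ℝ := Real.log c - Real.log X with hwdef
  set f : ℝ → ℝ := fun T => ‖DD 2 (Real.log (c * X)) T‖ with hf
  set g : ℝ → ℝ := fun T => ‖DD 2 (Real.log (K / c) + Real.log (T / X)) T‖ with hg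
  have hXX : X ≤ 2 * X := by linarith
  have hDc := (h10 2 (by norm_num) (by norm_num)).1
  have hfc : Continuous f := by
    have h8 : Continuous (fun T : ℝ => ((Real.log (c * X), T) : ℝ × ℝ)) := by fun_prop
    exact (hDc.comp h8).norm
  have hgc : ContinuousOn g (uIcc X (2 * X)) := by
    have h8 : ContinuousOn (fun T : ℝ => ((Real.log (K / c) + Real.log (T / X), T) : ℝ × ℝ))
        (uIcc X (2 * X)) := by
      rw [uIcc_of_le hXX]
      refine ContinuousOn.prodMk ?_ continuousOn_id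
      refine continuousOn_const.add (ContinuousOn.log (by fun_prop) ?_)
      intro T hT
      have : 0 < T := lt_of_lt_of_le hX0 hT.1
      positivity
    exact (hDc.comp_continuousOn h8).norm
  have hwX : ContinuousOn (fun T : ℝ => wt (T / X)) (uIcc X (2 * X)) := by
    rw [uIcc_of_le hXX]
    refine hwc.comp (by fun_prop) ?_
    intro T hT
    have : 0 < T := lt_of_lt_of_le hX0 hT.1
    exact div_pos this hX0
  have hwb : ∀ T ∈ Icc X (2 * X), 0 ≤ wt (T / X) ∧ wt (T / X) ≤ 1 := by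
    intro T hT
    refine hwt _ ⟨?_, ?_⟩
    · rw [le_div_iff₀ hX0]; linarith [hT.1]
    · rw [div_le_iff₀ hX0]; exact hT.2
  have hQc : Continuous (QQ Z w) := (h4 Z w).1
  have hQ0 : ∀ T, 0 ≤ QQ Z w T := (h4 Z w).2.2
  have hSc : Continuous (SQ Z w n) := by
    unfold SQ
    refine continuous_finsetSum _ fun j _ => ?_
    exact continuous_const.mul (hQc.comp (by fun_prop))
  have hS0 : ∀ T, 0 ≤ SQ Z w n T := fun T =>
    Finset.sum_nonneg fun j _ => mul_nonneg (Real.exp_pos _).le (hQ0 _)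
  -- integrals
  have If : IntervalIntegrable (fun T => wt (T / X) * f T ^ 2) volume X (2 * X) :=
    (hwX.mul (hfc.pow 2).continuousOn).intervalIntegrable
  have Ig : IntervalIntegrable (fun T => wt (T / X) * g T ^ 2) volume X (2 * X) :=
    (hwX.mul (hgc.pow 2)).intervalIntegrable
  have IN : IntervalIntegrable (fun T => N2 Z T) volume X (2 * X) :=
    (N2_cont Z).intervalIntegrable _ _
  have IS : IntervalIntegrable (fun T => SQ Z w n T) volume X (2 * X) :=
    hSc.intervalIntegrable _ _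
  have hIN : ∫ T in X..(2 * X), N2 Z T ≤ C2 * X := by
    refine le_trans ?_ (hN2 X δ hX2 hδ hδδ0 hH Z hZ)
    exact intervalIntegral.integral_mono_interval (by linarith) hXX (by linarith)
      (ae_of_all _ fun T => N2_nonneg Z T) ((N2_cont Z).intervalIntegrable _ _)
  have hIS : ∫ T in X..(2 * X), SQ Z w n T ≤ S * Cq * X := by
    unfold SQ
    have hint : ∀ j ∈ Finset.Icc (-(n : ℤ)) n, IntervalIntegrable
        (fun T : ℝ => Real.exp (-((j : ℝ) ^ 2)) * QQ Z w (T + j)) volume X (2 * X) := by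
      intro j _
      have h12 : Continuous (fun T : ℝ => T + (j : ℝ)) := by fun_prop
      have h13 : Continuous (fun T : ℝ => QQ Z w (T + (j : ℝ))) := hQc.comp h12
      exact (continuous_const.mul h13).intervalIntegrable _ _
    rw [intervalIntegral.integral_finsetSum hint]
    have h12 : ∀ j ∈ Finset.Icc (-(n : ℤ)) n, (∫ T in X..(2 * X), Real.exp (-((j : ℝ) ^ 2)) *
        QQ Z w (T + j)) ≤ Real.exp (-((j : ℝ) ^ 2)) * (Cq * X) := by
      intro j hj
      rw [Finset.mem_Icc] at hj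
      have hj1 : -(X / 2) ≤ (j : ℝ) := by
        have : (-(n : ℤ) : ℝ) ≤ (j : ℝ) := by exact_mod_cast hj.1
        push_cast at this
        linarith
      have hj2 : (j : ℝ) ≤ X / 2 := by
        have : (j : ℝ) ≤ ((n : ℤ) : ℝ) := by exact_mod_cast hj.2
        push_cast at this
        linarith
      rw [intervalIntegral.integral_const_mul]
      refine mul_le_mul_of_nonneg_left ?_ (Real.exp_pos _).le
      rw [intervalIntegral.integral_comp_add_right (fun T => QQ Z w T)]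
      refine le_trans ?_ (hq X δ hXq hδ hδδq hH Z hZ)
      exact intervalIntegral.integral_mono_interval (by linarith) (by linarith) (by linarith)
        (ae_of_all _ fun T => hQ0 T) (hQc.intervalIntegrable _ _)
    refine (Finset.sum_le_sum h12).trans ?_
    rw [← Finset.sum_mul]
    have h13 := mul_le_mul_of_nonneg_right (hSn n) (by positivity : 0 ≤ Cq * X)
    linarith
  have hIf := hMV 2 (Real.log (c * X)) X (by norm_num) (by norm_num) hX1
  have hcX : 0 < c * X := mul_pos hc hX0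
  have he1 : Real.exp (Real.log (c * X)) = c * X := Real.exp_log hcX
  have he2 : Real.exp (2 * Real.log (c * X)) = (c * X) ^ 2 := by
    rw [two_mul, Real.exp_add, he1]; ring
  rw [he1, he2] at hIf
  have hIf' : |(∫ T in X..(2 * X), wt (T / X) * f T ^ 2) - X * W0 * AA 2 (Real.log (c * X))| ≤
      C3 * (c * X + (c * X) ^ 2) / X := hIf
  have hq' : C3 * (c * X + (c * X) ^ 2) / X = C3 * (c + c ^ 2 * X) := by
    field_simp
  rw [hq'] at hIf'
  have hAA : AA 2 (Real.log (c * X)) ≤ C4 :=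
    (hDDB 2 (Real.log (c * X)) (by norm_num) (by norm_num)).2.2.2.2.2.1
  set F : ℝ := ∫ T in X..(2 * X), wt (T / X) * f T ^ 2 with hF
  set G : ℝ := ∫ T in X..(2 * X), wt (T / X) * g T ^ 2 with hG
  have hFle : F ≤ X * (W0 * C4 + 2 * C3) := by
    have h8 := (abs_le.1 hIf').2
    have h9 : X * W0 * AA 2 (Real.log (c * X)) ≤ X * W0 * C4 := by gcongr
    have h10 : c + c ^ 2 * X ≤ 2 * X := by
      have : c ^ 2 ≤ 1 := by nlinarith
      nlinarith
    have h11 : C3 * (c + c ^ 2 * X) ≤ C3 * (2 * X) := by gcongr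
    nlinarith
  -- the comparison
  have hFG : |F - G| ≤ X * (δ * (W0 * C4 + 2 * C3 + 2 * C6 * (S * Cq + C2 + 1))) := by
    have h8 : F - G = ∫ T in X..(2 * X), (wt (T / X) * f T ^ 2 - wt (T / X) * g T ^ 2) :=
      (intervalIntegral.integral_sub If Ig).symm
    have h9 : |F - G| ≤ ∫ T in X..(2 * X), |wt (T / X) * f T ^ 2 - wt (T / X) * g T ^ 2| := by
      rw [h8]
      exact intervalIntegral.abs_integral_le_integral_abs hXX
    have Ib : IntervalIntegrable (fun T => δ * (wt (T / X) * f T ^ 2) +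
        (2 * δ * C6 * SQ Z w n T + (2 * δ * C6 * N2 Z T + 2 * δ * C6))) volume X (2 * X) :=
      (If.const_mul _).add ((IS.const_mul _).add ((IN.const_mul _).add intervalIntegrable_const))
    have h10 : ∫ T in X..(2 * X), |wt (T / X) * f T ^ 2 - wt (T / X) * g T ^ 2| ≤
        ∫ T in X..(2 * X), (δ * (wt (T / X) * f T ^ 2) +
        (2 * δ * C6 * SQ Z w n T + (2 * δ * C6 * N2 Z T + 2 * δ * C6))) := by
      refine intervalIntegral.integral_mono_on hXX (If.sub Ig).abs Ib fun T hT => ?_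
      have h11 := hD X δ hXd hδ hδ1 hH Z hZ T hT.1 hT.2
      have h12 : |f T - g T| ^ 2 ≤ δ ^ 2 * (C6 * (SQ Z w n T + N2 Z T + 1)) := by
        refine h11.trans ?_
        have h13 : Real.log X / X ^ 2 * N2 Z T ≤ δ ^ 2 * N2 Z T :=
          mul_le_mul_of_nonneg_right hLX (N2_nonneg Z T)
        have h14 : C6 * (δ ^ 2 * SQ Z w n T + Real.log X / X ^ 2 * N2 Z T + 1 / X) ≤
            C6 * (δ ^ 2 * SQ Z w n T + δ ^ 2 * N2 Z T + δ ^ 2) := by gcongr
        refine h14.trans (le_of_eq ?_)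
        ring
      have h15 := sqdiff hδ hδ1 (norm_nonneg _) h12
      rw [← mul_sub, abs_mul, abs_of_nonneg (hwb T hT).1]
      have hw0 := (hwb T hT).1
      have hw1 := (hwb T hT).2
      have h16 := mul_le_mul_of_nonneg_left h15 hw0
      have h17 : 0 ≤ 2 * δ * (C6 * (SQ Z w n T + N2 Z T + 1)) := by
        have := hS0 T
        have := N2_nonneg Z T
        positivity
      have h18 : wt (T / X) * (2 * δ * (C6 * (SQ Z w n T + N2 Z T + 1))) ≤
          1 * (2 * δ * (C6 * (SQ Z w n T + N2 Z T + 1))) :=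
        mul_le_mul_of_nonneg_right hw1 h17
      refine h16.trans ?_
      rw [mul_add]
      have h19 : wt (T / X) * (δ * f T ^ 2) = δ * (wt (T / X) * f T ^ 2) := by ring
      have h20 : 1 * (2 * δ * (C6 * (SQ Z w n T + N2 Z T + 1))) =
          2 * δ * C6 * SQ Z w n T + (2 * δ * C6 * N2 Z T + 2 * δ * C6) := by ring
      change wt (T / X) * (δ * f T ^ 2) + wt (T / X) * (2 * δ * (C6 * (SQ Z w n T + N2 Z T + 1))) ≤ _
      linarith
    have h14 : ∫ T in X..(2 * X), (δ * (wt (T / X) * f T ^ 2) +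
        (2 * δ * C6 * SQ Z w n T + (2 * δ * C6 * N2 Z T + 2 * δ * C6))) =
        δ * F + (2 * δ * C6 * (∫ T in X..(2 * X), SQ Z w n T) +
          (2 * δ * C6 * (∫ T in X..(2 * X), N2 Z T) + 2 * δ * C6 * X)) := by
      rw [intervalIntegral.integral_add (If.const_mul _) ((IS.const_mul _).add
        ((IN.const_mul _).add intervalIntegrable_const)),
        intervalIntegral.integral_add (IS.const_mul _) ((IN.const_mul _).add
          intervalIntegrable_const),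
        intervalIntegral.integral_add (IN.const_mul _) intervalIntegrable_const,
        intervalIntegral.integral_const_mul, intervalIntegral.integral_const_mul,
        intervalIntegral.integral_const_mul, intervalIntegral.integral_const, smul_eq_mul]
      ring
    have h15 : δ * F ≤ δ * (X * (W0 * C4 + 2 * C3)) := by gcongr
    have h16 : 2 * δ * C6 * (∫ T in X..(2 * X), SQ Z w n T) ≤
        2 * δ * C6 * (S * Cq * X) := by gcongr
    have h17 : 2 * δ * C6 * (∫ T in X..(2 * X), N2 Z T) ≤ 2 * δ * C6 * (C2 * X) := by gcongr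
    have h18 : X * (δ * (W0 * C4 + 2 * C3 + 2 * C6 * (S * Cq + C2 + 1))) =
      δ * (X * (W0 * C4 + 2 * C3)) + (2 * δ * C6 * (S * Cq * X) + (2 * δ * C6 * (C2 * X) +
        2 * δ * C6 * X)) := by ring
    rw [h18]
    linarith
  -- conclusion
  have h20 : |X * W0 * AA 2 (Real.log (c * X)) - G| ≤
      X * (C3 * c ^ 2 + (C3 + (W0 * C4 + 2 * C3 + 2 * C6 * (S * Cq + C2 + 1))) * δ) := by
    have h21 : |X * W0 * AA 2 (Real.log (c * X)) - G| ≤
        |X * W0 * AA 2 (Real.log (c * X)) - F| + |F - G| := abs_sub_le _ _ _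
    rw [abs_sub_comm _ F] at h21
    have h22 : C3 * (c + c ^ 2 * X) ≤ X * (C3 * (c ^ 2 + δ)) := by
      have h23 : 1 ≤ δ * X := by
        rw [div_le_iff₀ hX0] at hXi
        exact hXi
      have h24 : c + c ^ 2 * X ≤ X * (c ^ 2 + δ) := by nlinarith
      calc C3 * (c + c ^ 2 * X) ≤ C3 * (X * (c ^ 2 + δ)) := by gcongr
        _ = X * (C3 * (c ^ 2 + δ)) := by ring
    have h28 : X * (C3 * c ^ 2 + (C3 + (W0 * C4 + 2 * C3 + 2 * C6 * (S * Cq + C2 + 1))) * δ) =
        X * (C3 * (c ^ 2 + δ)) + X * (δ * (W0 * C4 + 2 * C3 + 2 * C6 * (S * Cq + C2 + 1))) := by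
      ring
    rw [h28]
    linarith
  have h30 : W0 * AA 2 (Real.log (c * X)) - 1 / X * G =
      1 / X * (X * W0 * AA 2 (Real.log (c * X)) - G) := by
    field_simp
  rw [h30, abs_mul, abs_of_pos (by positivity : (0 : ℝ) < 1 / X)]
  calc 1 / X * |X * W0 * AA 2 (Real.log (c * X)) - G|
      ≤ 1 / X * (X * (C3 * c ^ 2 +
        (C3 + (W0 * C4 + 2 * C3 + 2 * C6 * (S * Cq + C2 + 1))) * δ)) := by gcongr
    _ = C3 * c ^ 2 + (C3 + (W0 * C4 + 2 * C3 + 2 * C6 * (S * Cq + C2 + 1))) * δ := by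
        field_simp

end

end Pool.Agent.Q113.AL
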